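import Mathlib
import Pool.Agent.Lib.Helper88.Ach.Defs

/-!
# Composition of kernels, non-collapsing lemma
-/

set_option autoImplicit false
set_option linter.unusedSectionVars false

open Finset
open scoped symmDiff

namespace Pool.Agent.Lib.Helper30.Ach

open Pool.Agent.Lib.Helper88.Ach

variable {ι : Type} [Fintype ι] [DecidableEq ι]

/-! ### Operators -/

/-- Averaging operator of a kernel. -/
noncomputable def op (K : Finset ι → Finset ι → ℝ) (f : Finset ι → ℝ) : Finset ι → ℝ :=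
  fun S => ∑ S', K S S' * f S'

/-- Composition of the kernels `K a, K (a+1), …, K (a+n-1)`. -/
noncomputable def comp (K : ℕ → Finset ι → Finset ι → ℝ) :
    ℕ → ℕ → (Finset ι → ℝ) → (Finset ι → ℝ)
  | _, 0, f => f
  | a, (n + 1), f => op (K a) (comp K (a + 1) n f)

section
variable {K : ℕ → Finset ι → Finset ι → ℝ}

lemma comp_add (a n m : ℕ) (f : Finset ι → ℝ) :
    comp K a (n + m) f = comp K a n (comp K (a + n) m f) := by
  induction n generalizing a with
  | zero => simp [comp]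
  | succ n ih =>
    rw [Nat.add_right_comm, comp, ih (a + 1), comp]
    congr 3
    omega

lemma comp_mono (hK : ∀ j S S', 0 ≤ K j S S') {f g : Finset ι → ℝ} (hfg : ∀ S, f S ≤ g S)
    (a n : ℕ) : ∀ S, comp K a n f S ≤ comp K a n g S := by
  induction n generalizing a with
  | zero => exact hfg
  | succ n ih =>
    intro S
    rw [comp, comp, op, op]
    exact Finset.sum_le_sum fun S' _ => mul_le_mul_of_nonneg_left (ih (a + 1) S') (hK _ _ _)

lemma comp_nonneg (hK : ∀ j S S', 0 ≤ K j S S') {f : Finset ι → ℝ} (hf : ∀ S, 0 ≤ f S)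
    (a n : ℕ) : ∀ S, 0 ≤ comp K a n f S := by
  induction n generalizing a with
  | zero => exact hf
  | succ n ih =>
    intro S
    rw [comp, op]
    exact Finset.sum_nonneg fun S' _ => mul_nonneg (hK _ _ _) (ih (a + 1) S')

lemma comp_const (hK1 : ∀ j S, ∑ S', K j S S' = 1) (c : ℝ) (a n : ℕ) :
    comp K a n (fun _ => c) = fun _ => c := by
  induction n generalizing a with
  | zero => rfl
  | succ n ih =>
    rw [comp, ih (a + 1)]
    funext S
    rw [op, ← Finset.sum_mul, hK1, one_mul]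

lemma comp_add_fun (f g : Finset ι → ℝ) (a n : ℕ) :
    comp K a n (fun S => f S + g S) = fun S => comp K a n f S + comp K a n g S := by
  induction n generalizing a with
  | zero => rfl
  | succ n ih =>
    rw [comp, ih (a + 1)]
    funext S
    simp only [comp, op]
    rw [← Finset.sum_add_distrib]
    exact Finset.sum_congr rfl fun S' _ => by ring

lemma comp_sum {α : Type*} (s : Finset α) (f : α → Finset ι → ℝ) (a n : ℕ) :
    comp K a n (fun S => ∑ i ∈ s, f i S) = fun S => ∑ i ∈ s, comp K a n (f i) S := by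
  induction n generalizing a with
  | zero => rfl
  | succ n ih =>
    rw [comp, ih (a + 1)]
    funext S
    simp only [comp, op]
    rw [Finset.sum_comm]
    exact Finset.sum_congr rfl fun S' _ => by rw [Finset.mul_sum]

end

/-! ### Free flips -/

/-- A law on finsets supported on sets of cardinality at most `M`. -/
structure IsLaw (ν : Finset ι → ℝ) (M : ℕ) : Prop where
  nonneg : ∀ F, 0 ≤ ν F
  sum : ∑ F, ν F = 1
  card : ∀ F, ν F ≠ 0 → F.card ≤ M

lemma symmDiff_card_le (A B : Finset ι) : (A ∆ B).card ≤ A.card + B.card := by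
  have h : A ∆ B ⊆ A ∪ B := by
    intro n hn
    rw [Finset.mem_symmDiff] at hn
    rw [Finset.mem_union]
    tauto
  exact (Finset.card_le_card h).trans (Finset.card_union_le A B)

/-- Domination of compositions by free flips. -/
lemma comp_dom {x : ι → ℝ} {M : ℕ → ℕ} {d : ℕ → ℝ} (κ : ∀ j, Kern x (M j) (d j)) (a n : ℕ) :
    ∃ ν : Finset ι → ℝ, IsLaw ν (∑ j ∈ Finset.range n, M (a + j)) ∧
      ∀ f : Finset ι → ℝ, (∀ S, 0 ≤ f S) → ∀ S,
        comp (fun j => (κ j).K) a n f S ≤ 2 ^ n * ∑ F, ν F * f (S ∆ F) := by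
  induction n generalizing a with
  | zero =>
    refine ⟨fun F => if F = ∅ then 1 else 0, ⟨fun F => by positivity, by simp, ?_⟩, ?_⟩
    · intro F hF
      have : F = ∅ := by
        by_contra h
        exact hF (if_neg h)
      simp [this]
    · intro f hf S
      simp only [comp, pow_zero, one_mul, ite_mul, zero_mul]
      rw [Finset.sum_ite_eq' Finset.univ (∅ : Finset ι)]
      have : S ∆ (∅ : Finset ι) = S := symmDiff_bot S
      simp [this]
  | succ n ih =>
    obtain ⟨ν, hν, hdom⟩ := ih (a + 1)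
    refine ⟨fun F => ∑ F1, (κ a).μ F1 * ν (F1 ∆ F), ⟨?_, ?_, ?_⟩, ?_⟩
    · intro F
      exact Finset.sum_nonneg fun F1 _ => mul_nonneg ((κ a).μ_nonneg _) (hν.nonneg _)
    · rw [Finset.sum_comm]
      have h1 : ∀ F1, ∑ F, (κ a).μ F1 * ν (F1 ∆ F) = (κ a).μ F1 := by
        intro F1
        rw [← Finset.mul_sum]
        have h2 : ∑ F, ν (F1 ∆ F) = ∑ F, ν F := by
          apply Finset.sum_nbij' (fun F => F1 ∆ F) (fun F => F1 ∆ F)
          · intro F _; exact Finset.mem_univ _
          · intro F _; exact Finset.mem_univ _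
          · intro F _; exact symmDiff_symmDiff_cancel_left F1 F
          · intro F _; exact symmDiff_symmDiff_cancel_left F1 F
          · intro F _; rfl
        rw [h2, hν.sum, mul_one]
      rw [Finset.sum_congr rfl fun F1 _ => h1 F1, (κ a).μ_sum]
    · intro F hF
      obtain ⟨F1, _, hF1⟩ := Finset.exists_ne_zero_of_sum_ne_zero hF
      have h1 : (κ a).μ F1 ≠ 0 := left_ne_zero_of_mul hF1
      have h2 : ν (F1 ∆ F) ≠ 0 := right_ne_zero_of_mul hF1
      have h3 := (κ a).μ_card _ h1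
      have h4 := hν.card _ h2
      have h5 : F = F1 ∆ (F1 ∆ F) := (symmDiff_symmDiff_cancel_left F1 F).symm
      rw [h5, Finset.sum_range_succ']
      refine (symmDiff_card_le _ _).trans ?_
      have h6 : ∑ k ∈ Finset.range n, M (a + (k + 1)) = ∑ j ∈ Finset.range n, M (a + 1 + j) :=
        Finset.sum_congr rfl fun j _ => by congr 1; omega
      rw [h6]
      simp only [add_zero]
      omega
    · intro f hf S
      have h1 : comp (fun j => (κ j).K) a (n + 1) f S ≤
          ∑ S', (2 * (κ a).μ (S ∆ S')) * (2 ^ n * ∑ F, ν F * f (S' ∆ F)) := by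
        rw [comp, op]
        apply Finset.sum_le_sum
        intro S' _
        apply mul_le_mul ((κ a).K_dom S S') (hdom f hf S')
        · exact comp_nonneg (fun j => (κ j).K_nonneg) hf _ _ _
        · exact mul_nonneg zero_le_two ((κ a).μ_nonneg _)
      refine h1.trans (le_of_eq ?_)
      have h2 : ∑ S', (2 * (κ a).μ (S ∆ S')) * (2 ^ n * ∑ F, ν F * f (S' ∆ F)) =
          ∑ F1, (2 * (κ a).μ F1) * (2 ^ n * ∑ F, ν F * f ((S ∆ F1) ∆ F)) := by
        apply Finset.sum_nbij' (fun S' => S ∆ S') (fun F1 => S ∆ F1)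
        · intro F _; exact Finset.mem_univ _
        · intro F _; exact Finset.mem_univ _
        · intro F _; exact symmDiff_symmDiff_cancel_left S F
        · intro F _; exact symmDiff_symmDiff_cancel_left S F
        · intro S' _
          rw [symmDiff_symmDiff_cancel_left S S']
      rw [h2]
      have h3 : ∀ F1 : Finset ι, ∑ F, ν F * f ((S ∆ F1) ∆ F) = ∑ F, ν (F1 ∆ F) * f (S ∆ F) := by
        intro F1
        apply Finset.sum_nbij' (fun F => F1 ∆ F) (fun F => F1 ∆ F)
        · intro F _; exact Finset.mem_univ _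
        · intro F _; exact Finset.mem_univ _
        · intro F _; exact symmDiff_symmDiff_cancel_left F1 F
        · intro F _; exact symmDiff_symmDiff_cancel_left F1 F
        · intro F _
          rw [symmDiff_symmDiff_cancel_left F1 F, symmDiff_assoc]
      simp_rw [h3]
      rw [Finset.mul_sum]
      simp_rw [Finset.sum_mul, Finset.mul_sum]
      rw [Finset.sum_comm]
      apply Finset.sum_congr rfl
      intro F _
      apply Finset.sum_congr rfl
      intro F1 _
      ring

/-! ### Displacement -/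

lemma X_symmDiff {x : ι → ℝ} (S F : Finset ι) :
    X x (S ∆ F) = X x S - X x (S ∩ F) + X x (F \ S) := by
  have h1 : S ∆ F = (S \ F) ∪ (F \ S) := rfl
  have hdis : Disjoint (S \ F) (F \ S) := by
    rw [Finset.disjoint_left]
    intro n h1 h2
    exact (Finset.mem_sdiff.1 h2).2 (Finset.mem_sdiff.1 h1).1
  have h2 : X x S = X x (S \ F) + X x (S ∩ F) := by
    unfold X
    rw [← Finset.sum_union (Finset.disjoint_sdiff_inter S F), Finset.sdiff_union_inter]
  rw [h2]
  unfold X
  rw [h1, Finset.sum_union hdis]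
  ring

lemma X_nonneg {x : ι → ℝ} (hx : ∀ n, 0 < x n) (S : Finset ι) : 0 ≤ X x S :=
  Finset.sum_nonneg fun n _ => (hx n).le

lemma X_mono {x : ι → ℝ} (hx : ∀ n, 0 < x n) {S T : Finset ι} (h : S ⊆ T) : X x S ≤ X x T :=
  Finset.sum_le_sum_of_subset_of_nonneg h fun n _ _ => (hx n).le

lemma abs_X_sub {x : ι → ℝ} (hx : ∀ n, 0 < x n) (S S' : Finset ι) :
    |X x S - X x S'| ≤ X x (S ∆ S') := by
  have h1 : S' = S ∆ (S ∆ S') := (symmDiff_symmDiff_cancel_left S S').symm
  have h2 := X_symmDiff (x := x) S (S ∆ S')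
  rw [← h1] at h2
  have h3 := X_mono hx (Finset.inter_subset_right : S ∩ (S ∆ S') ⊆ S ∆ S')
  have h4 := X_mono hx (Finset.sdiff_subset : (S ∆ S') \ S ⊆ S ∆ S')
  have h5 := X_nonneg hx (S ∩ (S ∆ S'))
  have h6 := X_nonneg hx ((S ∆ S') \ S)
  rw [abs_le]
  constructor <;> linarith

lemma kern_disp {x : ι → ℝ} (hx : ∀ n, 0 < x n) {M : ℕ} {d : ℝ} (κ : Kern x M d)
    {S S' : Finset ι} (h : κ.K S S' ≠ 0) : |X x S - X x S'| ≤ d := by
  refine (abs_X_sub hx S S').trans (κ.μ_disp _ ?_)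
  intro h0
  have h1 := κ.K_dom S S'
  rw [h0, mul_zero] at h1
  exact h (le_antisymm h1 (κ.K_nonneg _ _))

/-- Configurations whose sum is within `r` of the sum of a configuration of `E`. -/
noncomputable def fat (x : ι → ℝ) (r : ℝ) (E : Finset (Finset ι)) : Finset (Finset ι) := by
  classical
  exact univ.filter (fun S' => ∃ S ∈ E, |X x S - X x S'| ≤ r)

lemma mem_fat {x : ι → ℝ} {r : ℝ} {E : Finset (Finset ι)} {S' : Finset ι} :
    S' ∈ fat x r E ↔ ∃ S ∈ E, |X x S - X x S'| ≤ r := by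
  simp [fat]

/-- Indicator of a family of configurations. -/
noncomputable def ind (E : Finset (Finset ι)) : Finset ι → ℝ := fun S => if S ∈ E then 1 else 0

lemma ind_nonneg (E : Finset (Finset ι)) (S : Finset ι) : 0 ≤ ind E S := by
  unfold ind; split_ifs <;> norm_num

lemma ind_le_one (E : Finset (Finset ι)) (S : Finset ι) : ind E S ≤ 1 := by
  unfold ind; split_ifs <;> norm_num

lemma ind_of_mem {E : Finset (Finset ι)} {S : Finset ι} (h : S ∈ E) : ind E S = 1 := if_pos h

lemma ind_mono {E E' : Finset (Finset ι)} {S S' : Finset ι} (h : S ∈ E → S' ∈ E') :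
    ind E S ≤ ind E' S' := by
  by_cases hS : S ∈ E
  · rw [ind_of_mem hS, ind_of_mem (h hS)]
  · rw [ind, if_neg hS]
    exact ind_nonneg _ _

lemma comp_disp {x : ι → ℝ} (hx : ∀ n, 0 < x n) {M : ℕ → ℕ} {d : ℕ → ℝ}
    (κ : ∀ j, Kern x (M j) (d j)) (E : Finset (Finset ι)) (a n : ℕ) :
    ∀ S, comp (fun j => (κ j).K) a n (ind E) S ≤
      ind (fat x (∑ j ∈ Finset.range n, d (a + j)) E) S := by
  induction n generalizing a with
  | zero =>
    intro S
    simp only [comp, Finset.range_zero, Finset.sum_empty]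
    apply ind_mono
    intro h
    rw [mem_fat]
    exact ⟨S, h, by simp⟩
  | succ n ih =>
    intro S
    rw [comp, op]
    by_cases hS : S ∈ fat x (∑ j ∈ Finset.range (n + 1), d (a + j)) E
    · rw [ind_of_mem hS]
      calc ∑ S', (κ a).K S S' * comp (fun j => (κ j).K) (a + 1) n (ind E) S'
          ≤ ∑ S', (κ a).K S S' * 1 := by
            apply Finset.sum_le_sum
            intro S' _
            apply mul_le_mul_of_nonneg_left _ ((κ a).K_nonneg _ _)
            exact (ih (a + 1) S').trans (ind_le_one _ _)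
        _ = 1 := by simp [(κ a).K_sum]
    · rw [ind, if_neg hS]
      apply Finset.sum_nonpos
      intro S' _
      by_cases hK : (κ a).K S S' = 0
      · rw [hK, zero_mul]
      · have h1 := kern_disp hx (κ a) hK
        have h2 : S' ∉ fat x (∑ j ∈ Finset.range n, d (a + 1 + j)) E := by
          intro h3
          rw [mem_fat] at h3
          obtain ⟨S0, hS0, h4⟩ := h3
          apply hS
          rw [mem_fat]
          refine ⟨S0, hS0, ?_⟩
          rw [Finset.sum_range_succ']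
          have h6 : ∑ k ∈ Finset.range n, d (a + (k + 1)) = ∑ j ∈ Finset.range n, d (a + 1 + j) :=
            Finset.sum_congr rfl fun j _ => by congr 1; omega
          rw [h6]
          simp only [add_zero]
          have h7 : X x S0 - X x S = (X x S0 - X x S') - (X x S - X x S') := by ring
          rw [h7]
          refine (abs_sub _ _).trans ?_
          linarith
        have h5 := ih (a + 1) S'
        rw [ind, if_neg h2] at h5
        exact mul_nonpos_of_nonneg_of_nonpos ((κ a).K_nonneg _ _) h5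

/-! ### Cells -/

lemma cells_mono {x : ι → ℝ} {r : ℝ} {𝒮 𝒯 : Finset (Finset ι)} (h : 𝒮 ⊆ 𝒯) :
    cells x r 𝒮 ≤ cells x r 𝒯 :=
  Finset.card_le_card (Finset.image_subset_image h)

lemma nbhd_mono {T : ℕ} {𝒮 𝒯 : Finset (Finset ι)} (h : 𝒮 ⊆ 𝒯) : nbhd T 𝒮 ⊆ nbhd T 𝒯 := by
  intro S hS
  simp only [nbhd, Finset.mem_filter, Finset.mem_univ, true_and] at hS ⊢
  obtain ⟨S0, h1, h2⟩ := hS
  exact ⟨S0, h h1, h2⟩

lemma cells_fat {x : ι → ℝ} {r : ℝ} (hr : 0 < r) (E : Finset (Finset ι)) :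
    cells x r (fat x r E) ≤ 3 * cells x r E := by
  have h1 : (fat x r E).image (fun S => ⌊X x S / r⌋) ⊆
      (E.image (fun S => ⌊X x S / r⌋) ×ˢ ({-1, 0, 1} : Finset ℤ)).image (fun p => p.1 + p.2) := by
    intro m hm
    rw [Finset.mem_image] at hm
    obtain ⟨S', hS', rfl⟩ := hm
    rw [mem_fat] at hS'
    obtain ⟨S, hS, h⟩ := hS'
    rw [Finset.mem_image]
    refine ⟨(⌊X x S / r⌋, ⌊X x S' / r⌋ - ⌊X x S / r⌋), ?_, by simp⟩
    rw [Finset.mem_product]
    refine ⟨Finset.mem_image_of_mem _ hS, ?_⟩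
    have h2 : |X x S / r - X x S' / r| ≤ 1 := by
      rw [← sub_div, abs_div, abs_of_pos hr, div_le_one hr]
      exact h
    rw [abs_le] at h2
    have a1 := Int.floor_le (X x S / r)
    have a2 := Int.lt_floor_add_one (X x S / r)
    have a3 := Int.floor_le (X x S' / r)
    have a4 := Int.lt_floor_add_one (X x S' / r)
    have a5 : (⌊X x S' / r⌋ : ℝ) < (⌊X x S / r⌋ : ℝ) + 2 := by linarith
    have a6 : (⌊X x S / r⌋ : ℝ) < (⌊X x S' / r⌋ : ℝ) + 2 := by linarith
    have a7 : ⌊X x S' / r⌋ < ⌊X x S / r⌋ + 2 := by exact_mod_cast a5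
    have a8 : ⌊X x S / r⌋ < ⌊X x S' / r⌋ + 2 := by exact_mod_cast a6
    simp only [Finset.mem_insert, Finset.mem_singleton]
    omega
  calc cells x r (fat x r E) ≤ _ := Finset.card_le_card h1
    _ ≤ _ := Finset.card_image_le
    _ ≤ 3 * cells x r E := by
      rw [Finset.card_product, mul_comm]
      exact Nat.mul_le_mul_right _ (by decide)

/-- **Non-collapsing lemma.** -/
lemma noncollapse {x : ι → ℝ} {r : ℝ} {ν : Finset ι → ℝ} {M : ℕ} (hν : IsLaw ν M)
    {𝒮 𝒮' : Finset (Finset ι)} {β : ℝ}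
    (h : ∀ S ∈ 𝒮, β ≤ ∑ F, ν F * ind 𝒮' (S ∆ F)) :
    (cells x r 𝒮 : ℝ) * β ≤ 2 ^ (M + 1) * cells x r 𝒮' := by
  classical
  -- representatives
  obtain ⟨ℛ, hℛ, hinj, hℛimg⟩ := Finset.exists_subset_injOn_image_eq_of_surjOn
    (f := fun S : Finset ι => ⌊X x S / r⌋) 𝒮 (𝒮.image (fun S => ⌊X x S / r⌋)) (by
      intro m hm
      simpa using hm)
  have hcard : ℛ.card = cells x r 𝒮 := by
    rw [cells, ← hℛimg, Finset.card_image_of_injOn hinj]
  -- a good set of flips
  have h1 : (ℛ.card : ℝ) * β ≤ ∑ F, ν F * ∑ S ∈ ℛ, ind 𝒮' (S ∆ F) := by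
    calc (ℛ.card : ℝ) * β = ∑ _S ∈ ℛ, β := by rw [Finset.sum_const, nsmul_eq_mul]
      _ ≤ ∑ S ∈ ℛ, ∑ F, ν F * ind 𝒮' (S ∆ F) := Finset.sum_le_sum fun S hS => h S (hℛ hS)
      _ = ∑ F, ν F * ∑ S ∈ ℛ, ind 𝒮' (S ∆ F) := by
        rw [Finset.sum_comm]
        exact Finset.sum_congr rfl fun F _ => by rw [Finset.mul_sum]
  obtain ⟨F, hF0, hF⟩ : ∃ F, ν F ≠ 0 ∧ (ℛ.card : ℝ) * β ≤ ∑ S ∈ ℛ, ind 𝒮' (S ∆ F) := by
    by_contra hcon
    push Not at hcon
    have hlt : ∑ F, ν F * ∑ S ∈ ℛ, ind 𝒮' (S ∆ F) < ∑ F, ν F * ((ℛ.card : ℝ) * β) := by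
      apply Finset.sum_lt_sum
      · intro F _
        by_cases hF : ν F = 0
        · rw [hF]; simp
        · exact mul_le_mul_of_nonneg_left (hcon F hF).le (hν.nonneg F)
      · obtain ⟨F, _, hF⟩ := Finset.exists_ne_zero_of_sum_ne_zero
          (show ∑ F, ν F ≠ 0 by rw [hν.sum]; exact one_ne_zero)
        exact ⟨F, Finset.mem_univ _, mul_lt_mul_of_pos_left (hcon F hF)
          (lt_of_le_of_ne (hν.nonneg F) (Ne.symm hF))⟩
    rw [← Finset.sum_mul, hν.sum, one_mul] at hlt
    linarith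
  have hsum : ∑ S ∈ ℛ, ind 𝒮' (S ∆ F) = ((ℛ.filter (fun S => S ∆ F ∈ 𝒮')).card : ℝ) := by
    simp only [ind]
    rw [Finset.sum_boole]
  rw [hsum] at hF
  -- injection
  set ℛF := ℛ.filter (fun S => S ∆ F ∈ 𝒮') with hℛF
  set τ : Finset ι → ℝ := fun α => X x (F \ α) - X x α with hτ
  have hshift : ∀ S : Finset ι, X x (S ∆ F) = X x S + τ (S ∩ F) := by
    intro S
    have h2 : F \ (S ∩ F) = F \ S := by
      ext n
      simp only [Finset.mem_sdiff, Finset.mem_inter]
      tauto
    rw [X_symmDiff, hτ]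
    simp only
    rw [h2]
    ring
  set φ : Finset ι → Finset ι × ℤ × ℤ := fun S =>
    (S ∩ F, ⌊X x (S ∆ F) / r⌋, ⌊X x S / r⌋ - ⌊X x (S ∆ F) / r⌋ - ⌊- τ (S ∩ F) / r⌋) with hφ
  have hφmem : ∀ S ∈ ℛF, φ S ∈ F.powerset ×ˢ (𝒮'.image (fun S => ⌊X x S / r⌋)) ×ˢ
      ({0, 1} : Finset ℤ) := by
    intro S hS
    rw [hℛF, Finset.mem_filter] at hS
    rw [hφ]
    simp only
    rw [Finset.mem_product, Finset.mem_product, Finset.mem_powerset]
    refine ⟨Finset.inter_subset_right, Finset.mem_image_of_mem (fun S => ⌊X x S / r⌋) hS.2, ?_⟩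
    have h3 : X x S / r = X x (S ∆ F) / r + (- τ (S ∩ F) / r) := by
      rw [hshift S]; ring
    have b1 := Int.le_floor_add (X x (S ∆ F) / r) (- τ (S ∩ F) / r)
    have b2 := Int.le_floor_add_floor (X x (S ∆ F) / r) (- τ (S ∩ F) / r)
    rw [← h3] at b1 b2
    simp only [Finset.mem_insert, Finset.mem_singleton]
    omega
  have hφinj : Set.InjOn φ (ℛF : Set (Finset ι)) := by
    intro S hS S' hS' heq
    rw [hℛF, Finset.mem_coe, Finset.mem_filter] at hS hS'
    simp only [hφ, Prod.mk.injEq] at heq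
    obtain ⟨e1, e2, e3⟩ := heq
    apply hinj hS.1 hS'.1
    simp only
    rw [e1, e2] at e3
    omega
  have hle := Finset.card_le_card_of_injOn φ hφmem hφinj
  rw [Finset.card_product, Finset.card_product, Finset.card_powerset] at hle
  have h2 : ({0, 1} : Finset ℤ).card = 2 := by decide
  rw [h2] at hle
  have h4 : (ℛF.card : ℝ) ≤ 2 ^ F.card * ((cells x r 𝒮' : ℝ) * 2) := by exact_mod_cast hle
  rw [hcard] at hF
  refine hF.trans (h4.trans ?_)
  have h5 : (2:ℝ) ^ F.card ≤ 2 ^ M := pow_le_pow_right₀ one_le_two (hν.card F hF0)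
  calc (2:ℝ) ^ F.card * ((cells x r 𝒮' : ℝ) * 2) ≤ 2 ^ M * ((cells x r 𝒮' : ℝ) * 2) := by gcongr
    _ = _ := by ring

end Pool.Agent.Lib.Helper30.Ach
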