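import Mathlib
import Pool.Agent.Lib.Helper88.Ach.Defs
import Pool.Agent.Lib.Helper30.Ach.Chain

/-!
# The chain of kernels: construction of the labels
-/

set_option autoImplicit false
set_option linter.unusedSectionVars false

open Finset Filter Topology
open scoped symmDiff

namespace Pool.Agent.Lib.Helper30.Ach

open Pool.Agent.Lib.Helper88.Ach

variable {ι : Type} [Fintype ι] [DecidableEq ι]

/-- The identity kernel. -/
noncomputable def idKern (x : ι → ℝ) (M : ℕ) (d : ℝ) (hd : 0 ≤ d) : Kern x M d where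
  μ := fun F => if F = ∅ then 1 else 0
  μ_nonneg := fun F => by positivity
  μ_sum := by simp
  μ_card := by
    intro F hF
    have : F = ∅ := by
      by_contra h
      exact hF (if_neg h)
    rw [this, Finset.card_empty]
    exact Nat.zero_le _
  μ_disp := by
    intro F hF
    have : F = ∅ := by
      by_contra h
      exact hF (if_neg h)
    rw [this, X, Finset.sum_empty]
    exact hd
  K := fun S S' => if S = S' then 1 else 0
  K_nonneg := fun S S' => by positivity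
  K_sum := fun S => by simp
  K_dom := by
    intro S S'
    by_cases h : S = S'
    · subst h
      have : S ∆ S = ∅ := symmDiff_self S
      simp [this]
    · rw [if_neg h]
      positivity

lemma fat_mono {x : ι → ℝ} {r r' : ℝ} (h : r ≤ r') (E : Finset (Finset ι)) :
    fat x r E ⊆ fat x r' E := by
  intro S hS
  rw [mem_fat] at hS ⊢
  obtain ⟨S0, h1, h2⟩ := hS
  exact ⟨S0, h1, h2.trans h⟩

lemma sum_disp_le {q : ℝ} (hq : 1 < q) {i : ℕ} (hi : 1 ≤ i) (n : ℕ) :
    ∑ j ∈ Finset.range n, (2:ℝ) ^ (-(q ^ (((2 * i + j : ℕ):ℝ) / 2)) - ((2 * i + j : ℕ) : ℝ)) ≤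
      sc q i := by
  have hq0 : 0 < q := zero_lt_one.trans hq
  have h1 : ∀ j ∈ Finset.range n,
      (2:ℝ) ^ (-(q ^ (((2 * i + j : ℕ):ℝ) / 2)) - ((2 * i + j : ℕ) : ℝ)) ≤
      sc q i * ((1 / 2 : ℝ) * (1 / 2 : ℝ) ^ j) := by
    intro j _
    have h2 : q ^ i ≤ q ^ (((2 * i + j : ℕ):ℝ) / 2) := by
      rw [← Real.rpow_natCast]
      apply Real.rpow_le_rpow_of_exponent_le hq.le
      push_cast
      have : (0:ℝ) ≤ j := Nat.cast_nonneg j
      linarith
    have h3 : sc q i * ((1 / 2 : ℝ) * (1 / 2 : ℝ) ^ j) = (2:ℝ) ^ (-(q ^ i) - (1 + (j : ℝ))) := by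
      rw [sc, Real.rpow_sub two_pos, Real.rpow_add two_pos, Real.rpow_one, Real.rpow_natCast]
      rw [one_div, inv_pow, div_eq_mul_inv, mul_inv]
    rw [h3]
    apply Real.rpow_le_rpow_of_exponent_le one_le_two
    have h4 : (1:ℝ) ≤ i := by exact_mod_cast hi
    have h5 : ((2 * i + j : ℕ) : ℝ) = 2 * (i:ℝ) + j := by push_cast; ring
    rw [h5] at h2 ⊢
    linarith
  have hsc : 0 < sc q i := Real.rpow_pos_of_pos two_pos _
  calc _ ≤ ∑ j ∈ Finset.range n, sc q i * ((1 / 2 : ℝ) * (1 / 2 : ℝ) ^ j) := Finset.sum_le_sum h1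
    _ = sc q i * (1 / 2) * ∑ j ∈ Finset.range n, (1 / 2 : ℝ) ^ j := by
      rw [Finset.mul_sum]
      exact Finset.sum_congr rfl fun j _ => by ring
    _ ≤ sc q i * (1 / 2) * 2 := by
      gcongr
      have h5 := (summable_geometric_of_lt_one (by norm_num : (0:ℝ) ≤ 1 / 2)
        (by norm_num : (1 / 2 : ℝ) < 1)).sum_le_tsum (Finset.range n) (fun _ _ => by positivity)
      rw [tsum_geometric_of_lt_one (by norm_num) (by norm_num)] at h5
      norm_num at h5 ⊢
      exact h5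
    _ = sc q i := by ring

lemma sum_pow_le (a n D m : ℕ) (h : ∀ j < n, a + j ≤ m) :
    ∑ j ∈ Finset.range n, (a + j) ^ D ≤ n * m ^ D := by
  calc ∑ j ∈ Finset.range n, (a + j) ^ D ≤ ∑ _j ∈ Finset.range n, m ^ D :=
        Finset.sum_le_sum fun j hj => Nat.pow_le_pow_left (h j (Finset.mem_range.1 hj)) D
    _ = n * m ^ D := by simp

lemma numerics {q γ : ℝ} (hq : 1 < q) (hγ : 0 < γ) (D : ℕ) :
    ∃ i1 : ℕ, 1 ≤ i1 ∧ ∀ i : ℕ, i1 ≤ i →
      ((i * i ^ D + i * (2 * i) ^ D + 5 * i + 12 : ℕ) : ℝ) ≤ γ * q ^ i := by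
  have hq0 : 0 < q := zero_lt_one.trans hq
  have h1 := tendsto_pow_const_div_const_pow_of_one_lt (D + 1) hq
  have hpos : 0 < γ / (18 + 2 ^ D) := by positivity
  obtain ⟨i1, hi1⟩ := eventually_atTop.1 (h1.eventually_le_const hpos)
  refine ⟨max 1 i1, le_max_left _ _, fun i hi => ?_⟩
  have h2 := hi1 i (le_trans (le_max_right _ _) hi)
  have hi' : 1 ≤ i := le_trans (le_max_left _ _) hi
  rw [div_le_iff₀ (by positivity)] at h2
  have hi'' : (1:ℝ) ≤ i := by exact_mod_cast hi'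
  have h3 : (i:ℝ) ≤ (i:ℝ) ^ (D + 1) := by
    calc (i:ℝ) = (i:ℝ) ^ 1 := (pow_one _).symm
      _ ≤ (i:ℝ) ^ (D + 1) := pow_le_pow_right₀ hi'' (by omega)
  have h4 : (1:ℝ) ≤ (i:ℝ) ^ (D + 1) := one_le_pow₀ hi''
  push_cast
  calc (i:ℝ) * (i:ℝ) ^ D + (i:ℝ) * (2 * (i:ℝ)) ^ D + 5 * (i:ℝ) + 12
      = (i:ℝ) ^ (D + 1) * (1 + 2 ^ D) + 5 * (i:ℝ) + 12 := by
        rw [mul_pow, pow_succ]; ring
    _ ≤ (i:ℝ) ^ (D + 1) * (1 + 2 ^ D) + 5 * (i:ℝ) ^ (D + 1) + 12 * (i:ℝ) ^ (D + 1) := by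
        linarith
    _ = (18 + 2 ^ D) * (i:ℝ) ^ (D + 1) := by ring
    _ ≤ (18 + 2 ^ D) * (γ / (18 + 2 ^ D) * q ^ i) := by gcongr
    _ = γ * q ^ i := by field_simp

/-- (CHAIN) -/
theorem exists_tau {q : ℝ} (hq : 1 < q) {γ : ℝ} (hγ : 0 < γ) (D : ℕ) :
    ∃ i1 : ℕ, ∀ i0 ≥ i1, ∀ i2 : ℕ, ∀ (ι : Type) [Fintype ι] [DecidableEq ι] (x : ι → ℝ), (∀ n, 0 < x n) →
      (∀ i, i0 ≤ i → i ≤ i2 → ∃ κ : Kern x (i ^ D) ((2:ℝ) ^ (-(q ^ ((i:ℝ) / 2)) - i)),
        Absorbs κ i (sc q i) ((2:ℝ) ^ (γ * q ^ i))) →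
      ∀ E : ℕ → Finset (Finset ι), (∀ S, ∃ i, i0 ≤ i ∧ i ≤ i2 ∧ S ∈ E i) →
      ∃ τ : Finset ι → ℕ, (∀ S, i0 ≤ τ S ∧ τ S ≤ i2) ∧
        ∀ i, i0 ≤ i → i ≤ i2 →
          (cells x (sc q i) (nbhd i (univ.filter (fun S => τ S = i))) : ℝ) ≤
            (2:ℝ) ^ (2 * γ * q ^ i) * cells x (sc q i) (E i) := by
  obtain ⟨i1, hi11, hi1⟩ := numerics hq hγ D
  refine ⟨i1, fun i0 hi0 i2 ι _ _ x hx hkern E hE => ?_⟩
  classical
  -- the kernels
  set d : ℕ → ℝ := fun j => (2:ℝ) ^ (-(q ^ ((j:ℝ) / 2)) - j) with hd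
  have hd0 : ∀ j, 0 ≤ d j := fun j => (Real.rpow_pos_of_pos two_pos _).le
  set κ : ∀ j : ℕ, Kern x (j ^ D) (d j) := fun j =>
    if h : i0 ≤ j ∧ j ≤ i2 then (hkern j h.1 h.2).choose else idKern x _ _ (hd0 j) with hκ
  have hκabs : ∀ j, i0 ≤ j → j ≤ i2 → Absorbs (κ j) j (sc q j) ((2:ℝ) ^ (γ * q ^ j)) := by
    intro j h1 h2
    have h3 : κ j = (hkern j h1 h2).choose := by
      rw [hκ]
      exact dif_pos ⟨h1, h2⟩
    rw [h3]
    exact (hkern j h1 h2).choose_spec
  clear_value κ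
  set K : ℕ → Finset ι → Finset ι → ℝ := fun j => (κ j).K with hK
  have hK0 : ∀ j S S', 0 ≤ K j S S' := fun j => (κ j).K_nonneg
  have hK1 : ∀ j S, ∑ S', K j S S' = 1 := fun j => (κ j).K_sum
  -- the levels
  set c : ℕ → ℝ := fun i => (1 / 2 : ℝ) ^ (i + 2) with hc
  have hc0 : ∀ i, 0 < c i := fun i => by rw [hc]; positivity
  set N : ℕ := 2 * i2 + 1 with hN
  set h' : ℕ → Finset ι → ℝ := fun i => comp K (i + 1) (N - (i + 1)) (ind (E i)) with hh'
  set h : ℕ → Finset ι → ℝ := fun i => comp K i (N - i) (ind (E i)) with hh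
  have hstep : ∀ i ≤ i2, h i = op (K i) (h' i) := by
    intro i hi
    have h1 : N - i = (N - (i + 1)) + 1 := by omega
    rw [hh]
    simp only
    rw [h1, comp]
  set T : ℕ → Finset (Finset ι) := fun i => univ.filter (fun S => c i ≤ h i S) with hT
  set T' : ℕ → Finset (Finset ι) := fun i => univ.filter (fun S => c i / 2 ≤ h' i S) with hT'
  set g : ℕ → Finset ι → ℝ := fun i => comp K i0 (i - i0) (ind (T i)) with hg
  set Ts : ℕ → Finset (Finset ι) := fun i => univ.filter (fun S => c i ≤ g i S) with hTs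
  -- (a) the sets `Ts i` cover
  have hcover : ∀ S, ∃ i, i0 ≤ i ∧ i ≤ i2 ∧ S ∈ Ts i := by
    intro S
    by_contra hcon
    push Not at hcon
    have hi02 : i0 ≤ i2 := by
      obtain ⟨i, h1, h2, _⟩ := hE ∅
      exact h1.trans h2
    have h1 : (1:ℝ) ≤ comp K i0 (N - i0) (fun S => ∑ i ∈ Finset.Icc i0 i2, ind (E i) S) S := by
      have h2 := comp_const hK1 1 i0 (N - i0)
      have h3 : comp K i0 (N - i0) (fun _ => 1) S = 1 := by rw [h2]
      rw [← h3]
      apply comp_mono hK0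
      intro S
      obtain ⟨i, h4, h5, h6⟩ := hE S
      calc (1:ℝ) = ind (E i) S := (ind_of_mem h6).symm
        _ ≤ _ := Finset.single_le_sum (f := fun i => ind (E i) S) (fun i _ => ind_nonneg _ _)
          (Finset.mem_Icc.2 ⟨h4, h5⟩)
    rw [comp_sum] at h1
    have h2 : ∀ i ∈ Finset.Icc i0 i2, comp K i0 (N - i0) (ind (E i)) S ≤ (1 / 2 : ℝ) ^ (i + 1) := by
      intro i hi
      rw [Finset.mem_Icc] at hi
      have h3 : N - i0 = (i - i0) + (N - i) := by omega
      have h4 : i0 + (i - i0) = i := by omega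
      rw [h3, comp_add, h4]
      have h5 : ∀ S, comp K i (N - i) (ind (E i)) S ≤ ind (T i) S + c i := by
        intro S
        by_cases h6 : S ∈ T i
        · rw [ind_of_mem h6]
          have h7 : comp K i (N - i) (ind (E i)) S ≤ comp K i (N - i) (fun _ => 1) S :=
            comp_mono hK0 (fun S => ind_le_one _ _) _ _ S
          rw [comp_const hK1] at h7
          have := hc0 i
          linarith
        · have h7 : h i S < c i := by
            by_contra h8
            push Not at h8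
            exact h6 (by rw [hT]; exact Finset.mem_filter.2 ⟨Finset.mem_univ _, h8⟩)
          have h8 := ind_nonneg (T i) S
          have h9 : h i S = comp K i (N - i) (ind (E i)) S := rfl
          linarith
      have h6 := comp_mono hK0 h5 i0 (i - i0) S
      rw [comp_add_fun, comp_const hK1] at h6
      have h7 : g i S < c i := by
        by_contra h8
        push Not at h8
        exact hcon i hi.1 hi.2 (by rw [hTs]; exact Finset.mem_filter.2 ⟨Finset.mem_univ _, h8⟩)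
      have h8 : g i S = comp K i0 (i - i0) (ind (T i)) S := rfl
      have h9 : c i + c i = (1 / 2 : ℝ) ^ (i + 1) := by
        rw [hc]
        simp only
        ring
      have h10 : (fun S => comp K i0 (i - i0) (ind (T i)) S + c i) S =
        comp K i0 (i - i0) (ind (T i)) S + c i := rfl
      linarith
    have h3 : ∑ i ∈ Finset.Icc i0 i2, comp K i0 (N - i0) (ind (E i)) S ≤
        ∑ i ∈ Finset.Icc i0 i2, (1 / 2 : ℝ) ^ (i + 1) := Finset.sum_le_sum h2
    have h4 : ∑ i ∈ Finset.Icc i0 i2, (1 / 2 : ℝ) ^ (i + 1) ≤ 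
        ∑ i ∈ Finset.Icc 1 i2, (1 / 2 : ℝ) ^ (i + 1) := by
      apply Finset.sum_le_sum_of_subset_of_nonneg
      · apply Finset.Icc_subset_Icc_left
        omega
      · intro i _ _
        positivity
    have h5 : ∀ n : ℕ, ∑ i ∈ Finset.Icc 1 n, (1 / 2 : ℝ) ^ (i + 1) = 1 / 2 - (1 / 2 : ℝ) ^ (n + 1) := by
      intro n
      induction n with
      | zero => norm_num
      | succ n ih =>
        rw [Finset.sum_Icc_succ_top (by omega), ih]
        ring
    rw [h5] at h4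
    have h6 : (0:ℝ) < (1 / 2 : ℝ) ^ (i2 + 1) := by positivity
    have h7 : (fun S => ∑ i ∈ Finset.Icc i0 i2, comp K i0 (N - i0) (ind (E i)) S) S =
      ∑ i ∈ Finset.Icc i0 i2, comp K i0 (N - i0) (ind (E i)) S := rfl
    linarith
  choose τ hτ1 hτ2 hτ3 using hcover
  refine ⟨τ, fun S => ⟨hτ1 S, hτ2 S⟩, fun i hii0 hii2 => ?_⟩
  have hi : 1 ≤ i := by omega
  set r := sc q i with hr
  have hr0 : 0 < r := Real.rpow_pos_of_pos two_pos _
  -- (b)
  have hb : (cells x r (nbhd i (Ts i)) : ℝ) * (c i / 2 ^ i) ≤ 2 ^ (i * i ^ D + 1) * cells x r (nbhd i (T i)) := by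
    obtain ⟨ν, hν, hdom⟩ := comp_dom κ i0 (i - i0)
    have hν' : IsLaw ν (i * i ^ D) := by
      refine ⟨hν.nonneg, hν.sum, fun F hF => (hν.card F hF).trans ?_⟩
      refine (sum_pow_le i0 (i - i0) D i (fun j hj => by omega)).trans ?_
      exact Nat.mul_le_mul_right _ (by omega)
    apply noncollapse hν'
    intro S'' hS''
    rw [nbhd, Finset.mem_filter] at hS''
    obtain ⟨_, S, hS, hSS⟩ := hS''
    rw [hTs, Finset.mem_filter] at hS
    have h1 := hdom (ind (T i)) (ind_nonneg _) S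
    have h2 : ∑ F, ν F * ind (T i) (S ∆ F) ≤ ∑ F, ν F * ind (nbhd i (T i)) (S'' ∆ F) := by
      apply Finset.sum_le_sum
      intro F _
      apply mul_le_mul_of_nonneg_left _ (hν.nonneg F)
      apply ind_mono
      intro h3
      rw [nbhd, Finset.mem_filter]
      refine ⟨Finset.mem_univ _, S ∆ F, h3, ?_⟩
      have h4 : (S ∆ F) ∆ (S'' ∆ F) = S ∆ S'' := by
        rw [symmDiff_symmDiff_symmDiff_comm, symmDiff_self]
        exact symmDiff_bot _
      rw [h4]
      exact hSS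
    have h3 : c i ≤ 2 ^ (i - i0) * ∑ F, ν F * ind (nbhd i (T i)) (S'' ∆ F) :=
      hS.2.trans (h1.trans (mul_le_mul_of_nonneg_left h2 (by positivity)))
    have h4 : (0:ℝ) ≤ ∑ F, ν F * ind (nbhd i (T i)) (S'' ∆ F) :=
      Finset.sum_nonneg fun F _ => mul_nonneg (hν.nonneg F) (ind_nonneg _ _)
    rw [div_le_iff₀ (by positivity), mul_comm]
    refine h3.trans ?_
    apply mul_le_mul_of_nonneg_right _ h4
    exact pow_le_pow_right₀ one_le_two (by omega)
  -- (c)
  have hcc : (cells x r (nbhd i (T i)) : ℝ) * (c i / 2) ≤ (2:ℝ) ^ (γ * q ^ i) * cells x r (T' i) := by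
    apply hκabs i hii0 hii2
    · have := hc0 i
      positivity
    · intro S hS
      rw [hT, Finset.mem_filter] at hS
      have h1 := hS.2
      rw [hstep i hii2, op] at h1
      have h2 : ∑ S', K i S S' * h' i S' ≤ ∑ S', (K i S S' * ind (T' i) S' + K i S S' * (c i / 2)) := by
        apply Finset.sum_le_sum
        intro S' _
        rw [← mul_add]
        apply mul_le_mul_of_nonneg_left _ (hK0 _ _ _)
        by_cases h3 : S' ∈ T' i
        · rw [ind_of_mem h3]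
          have h4 : h' i S' ≤ comp K (i + 1) (N - (i + 1)) (fun _ => 1) S' :=
            comp_mono hK0 (fun S => ind_le_one _ _) _ _ S'
          rw [comp_const hK1] at h4
          have := hc0 i
          linarith
        · have h4 : h' i S' < c i / 2 := by
            by_contra h5
            push Not at h5
            exact h3 (by rw [hT']; exact Finset.mem_filter.2 ⟨Finset.mem_univ _, h5⟩)
          have := ind_nonneg (T' i) S'
          linarith
      rw [Finset.sum_add_distrib, ← Finset.sum_mul, hK1, one_mul] at h2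
      have h3 : ∑ S', K i S S' * ind (T' i) S' = ∑ S' ∈ T' i, (κ i).K S S' := by
        simp only [ind, mul_ite, mul_one, mul_zero]
        rw [Finset.sum_ite_mem, Finset.univ_inter]
      rw [← h3]
      linarith
  -- (d)
  have hdd : (cells x r (T' i) : ℝ) * (c i / 2 / 2 ^ i) ≤
      2 ^ (i * (2 * i) ^ D + 1) * cells x r (fat x r (E i)) := by
    obtain ⟨ν, hν, hdom⟩ := comp_dom κ (i + 1) (i - 1)
    have hν' : IsLaw ν (i * (2 * i) ^ D) := by
      refine ⟨hν.nonneg, hν.sum, fun F hF => (hν.card F hF).trans ?_⟩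
      refine (sum_pow_le (i + 1) (i - 1) D (2 * i) (fun j hj => by omega)).trans ?_
      exact Nat.mul_le_mul_right _ (by omega)
    apply noncollapse hν'
    intro S hS
    rw [hT', Finset.mem_filter] at hS
    have h1 : N - (i + 1) = (i - 1) + (N - 2 * i) := by omega
    have h2 : i + 1 + (i - 1) = 2 * i := by omega
    have h3 : h' i S = comp K (i + 1) (i - 1) (comp K (2 * i) (N - 2 * i) (ind (E i))) S := by
      rw [hh']
      simp only
      rw [h1, comp_add, h2]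
    have h4 : ∀ S, comp K (2 * i) (N - 2 * i) (ind (E i)) S ≤ ind (fat x r (E i)) S := by
      intro S
      refine (comp_disp hx κ (E i) (2 * i) (N - 2 * i) S).trans ?_
      apply ind_mono
      intro h5
      exact fat_mono (sum_disp_le hq hi _) _ h5
    have h5 : h' i S ≤ comp K (i + 1) (i - 1) (ind (fat x r (E i))) S := by
      rw [h3]
      exact comp_mono hK0 h4 _ _ S
    have h6 := hdom (ind (fat x r (E i))) (ind_nonneg _) S
    have h7 : (0:ℝ) ≤ ∑ F, ν F * ind (fat x r (E i)) (S ∆ F) :=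
      Finset.sum_nonneg fun F _ => mul_nonneg (hν.nonneg F) (ind_nonneg _ _)
    rw [div_le_iff₀ (by positivity), mul_comm (∑ F, _)]
    refine hS.2.trans (h5.trans (h6.trans ?_))
    apply mul_le_mul_of_nonneg_right _ h7
    exact pow_le_pow_right₀ one_le_two (by omega)
  -- conclusion
  have hA : (cells x r (nbhd i (univ.filter (fun S => τ S = i))) : ℝ) ≤ cells x r (nbhd i (Ts i)) := by
    exact_mod_cast cells_mono (nbhd_mono (by
      intro S hS
      rw [Finset.mem_filter] at hS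
      have := hτ3 S
      rwa [hS.2] at this))
  have hF : (cells x r (fat x r (E i)) : ℝ) ≤ 3 * cells x r (E i) := by
    exact_mod_cast cells_fat hr0 (E i)
  have hnum := hi1 i (by omega)
  set a : ℝ := (cells x r (nbhd i (Ts i)) : ℝ)
  set b : ℝ := (cells x r (nbhd i (T i)) : ℝ)
  set e : ℝ := (cells x r (T' i) : ℝ)
  set f : ℝ := (cells x r (E i) : ℝ)
  have hf0 : 0 ≤ f := Nat.cast_nonneg _
  have hci : c i = (2 ^ (i + 2) : ℝ)⁻¹ := by
    rw [hc]
    simp only
    rw [one_div, inv_pow]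
  have hb' : a ≤ 2 ^ (i * i ^ D + 1 + (i + 2) + i) * b := by
    have h1 : c i / 2 ^ i = (2 ^ ((i + 2) + i) : ℝ)⁻¹ := by
      rw [hci, pow_add 2 (i + 2) i, mul_inv, div_eq_mul_inv]
    rw [h1, ← div_eq_mul_inv, div_le_iff₀ (by positivity)] at hb
    refine hb.trans (le_of_eq ?_)
    rw [pow_add 2 (i * i ^ D + 1 + (i + 2)) i, pow_add 2 (i * i ^ D + 1) (i + 2), pow_add 2 (i + 2) i]
    ring
  have hc' : b ≤ 2 ^ (i + 3) * (2:ℝ) ^ (γ * q ^ i) * e := by
    have h1 : c i / 2 = (2 ^ (i + 3) : ℝ)⁻¹ := by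
      rw [hci, pow_succ 2 (i + 2), mul_inv, div_eq_mul_inv]
    rw [h1, ← div_eq_mul_inv, div_le_iff₀ (by positivity)] at hcc
    refine hcc.trans (le_of_eq ?_)
    ring
  have hd' : e ≤ 2 ^ (i * (2 * i) ^ D + 1 + (i + 3) + i) * (3 * f) := by
    have h1 : c i / 2 / 2 ^ i = (2 ^ ((i + 3) + i) : ℝ)⁻¹ := by
      rw [hci, pow_add 2 (i + 3) i, pow_succ 2 (i + 2), mul_inv, mul_inv, div_eq_mul_inv, div_eq_mul_inv]
    rw [h1, ← div_eq_mul_inv, div_le_iff₀ (by positivity)] at hdd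
    calc e ≤ 2 ^ (i * (2 * i) ^ D + 1) * (cells x r (fat x r (E i)) : ℝ) * 2 ^ (i + 3 + i) := hdd
      _ ≤ 2 ^ (i * (2 * i) ^ D + 1) * (3 * f) * 2 ^ (i + 3 + i) := by gcongr
      _ = _ := by
        rw [pow_add 2 (i * (2 * i) ^ D + 1 + (i + 3)) i, pow_add 2 (i * (2 * i) ^ D + 1) (i + 3),
          pow_add 2 (i + 3) i]
        ring
  have he0 : 0 ≤ e := Nat.cast_nonneg _
  have hb0 : 0 ≤ b := Nat.cast_nonneg _
  calc (cells x r (nbhd i (univ.filter (fun S => τ S = i))) : ℝ) ≤ a := hA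
    _ ≤ 2 ^ (i * i ^ D + 1 + (i + 2) + i) * b := hb'
    _ ≤ 2 ^ (i * i ^ D + 1 + (i + 2) + i) * (2 ^ (i + 3) * (2:ℝ) ^ (γ * q ^ i) * e) := by gcongr
    _ ≤ 2 ^ (i * i ^ D + 1 + (i + 2) + i) * (2 ^ (i + 3) * (2:ℝ) ^ (γ * q ^ i) *
        (2 ^ (i * (2 * i) ^ D + 1 + (i + 3) + i) * (4 * f))) := by
      have : 3 * f ≤ 4 * f := by linarith
      have h2 : e ≤ 2 ^ (i * (2 * i) ^ D + 1 + (i + 3) + i) * (4 * f) :=
        hd'.trans (by gcongr)
      gcongr
    _ = (2:ℝ) ^ (((i * i ^ D + i * (2 * i) ^ D + 5 * i + 12 : ℕ)) : ℝ) * (2:ℝ) ^ (γ * q ^ i) * f := by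
      rw [Real.rpow_natCast]
      have h1 : (2:ℝ) ^ (i * i ^ D + i * (2 * i) ^ D + 5 * i + 12) =
        2 ^ (i * i ^ D + 1 + (i + 2) + i) * 2 ^ (i + 3) * 2 ^ (i * (2 * i) ^ D + 1 + (i + 3) + i) * 2 ^ 2 := by
        rw [← pow_add, ← pow_add, ← pow_add]
        congr 1
        ring
      rw [h1]
      ring
    _ ≤ (2:ℝ) ^ (2 * γ * q ^ i) * f := by
      rw [← Real.rpow_add two_pos]
      apply mul_le_mul_of_nonneg_right _ hf0
      apply Real.rpow_le_rpow_of_exponent_le one_le_two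
      linarith

end Pool.Agent.Lib.Helper30.Ach
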