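import Mathlib
import Pool.Agent.Lib.Helper88.Ach.Defs
import Pool.Agent.Lib.Helper30.AchieveDim
import Pool.Agent.Lib.Helper30.Ach.Tau

/-!
# From absorbing kernels to the Hausdorff dimension of `E + E`
-/

set_option autoImplicit false
set_option linter.unusedSectionVars false

open MeasureTheory Set Filter Topology
open scoped ENNReal NNReal Pointwise symmDiff

namespace Pool.Agent.Lib.Helper30.Ach

open Pool.Agent.Lib.Helper88.Ach
open Pool.Agent.Lib.Helper30.Achieve (achSet exists_cover isCompact_achSet exists_pos_le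
  summable_aux trunc finset_sum_mem_achSet)

lemma X_eq_sum {ι : Type} [Fintype ι] [DecidableEq ι] (x : ι → ℝ) (S : Finset ι) :
    X x S = ∑ n, if n ∈ S then x n else 0 := by
  rw [X, Finset.sum_ite_mem, Finset.univ_inter]

/-- Splitting a sum of two subset sums with equal labels. -/
lemma split_fin {ι : Type} [Fintype ι] [DecidableEq ι] (x : ι → ℝ) (τ : Finset ι → ℕ)
    (hτ : ∀ S, 1 ≤ τ S) (A B : Finset ι) :
    ∃ S S' : Finset ι, S' ∈ nbhd (τ S) (Finset.univ.filter (fun T => τ T = τ S)) ∧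
      X x S + X x S' = X x A + X x B := by
  classical
  set D : Finset ι := A ∩ B with hD
  set K : Finset ι := A ∆ B with hK
  set m := K.card with hm
  set e : Fin m ≃ K := K.equivFin.symm with he
  set U : (Fin m → Bool) → Finset ι := fun σ =>
    Finset.univ.filter (fun n => n ∈ D ∨ ∃ h : n ∈ K, σ (e.symm ⟨n, h⟩) = true) with hU
  have hmem : ∀ σ n, n ∈ U σ ↔ n ∈ D ∨ ∃ h : n ∈ K, σ (e.symm ⟨n, h⟩) = true := by
    intro σ n
    rw [hU]
    simp
  clear_value U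
  obtain ⟨σ, σ2, hlab, hdist⟩ := Tucker.graded_antipodal m (fun σ => τ (U σ)) (fun σ => hτ _)
  obtain ⟨σ', hσ'⟩ : ∃ σ' : Fin m → Bool, σ' = fun i => !(σ i) := ⟨_, rfl⟩
  rw [← hσ'] at hdist
  have hσn : ∀ i, (σ' i = true) ↔ ¬ (σ i = true) := by
    intro i
    rw [hσ']
    simp
  refine ⟨U σ, U σ', ?_, ?_⟩
  · rw [nbhd, Finset.mem_filter]
    refine ⟨Finset.mem_univ _, U σ2, ?_, ?_⟩
    · rw [Finset.mem_filter]
      exact ⟨Finset.mem_univ _, hlab.symm⟩
    · refine le_trans ?_ hdist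
      have h1 : U σ2 ∆ U σ' ⊆
          (Finset.univ.filter (fun j => σ2 j ≠ σ' j)).image (fun j => ((e j : K) : ι)) := by
        intro n hn
        rw [Finset.mem_symmDiff, hmem σ2 n, hmem σ' n] at hn
        rw [Finset.mem_image]
        have hnK : n ∈ K := by
          rcases hn with ⟨h1 | ⟨h1, _⟩, h2⟩ | ⟨h1 | ⟨h1, _⟩, h2⟩
          · exact absurd (Or.inl h1) h2
          · exact h1
          · exact absurd (Or.inl h1) h2
          · exact h1
        refine ⟨e.symm ⟨n, hnK⟩, ?_, by simp⟩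
        rw [Finset.mem_filter]
        refine ⟨Finset.mem_univ _, fun heq => ?_⟩
        rcases hn with ⟨h1 | ⟨h1, h1'⟩, h2⟩ | ⟨h1 | ⟨h1, h1'⟩, h2⟩
        · exact absurd (Or.inl h1) h2
        · exact h2 (Or.inr ⟨hnK, by rw [← heq]; exact h1'⟩)
        · exact absurd (Or.inl h1) h2
        · exact h2 (Or.inr ⟨hnK, by rw [heq]; exact h1'⟩)
      exact (Finset.card_le_card h1).trans Finset.card_image_le
  · rw [X_eq_sum, X_eq_sum, X_eq_sum, X_eq_sum, ← Finset.sum_add_distrib, ← Finset.sum_add_distrib]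
    apply Finset.sum_congr rfl
    intro n _
    have hs1 := hmem σ n
    have hs2 := hmem σ' n
    have hDn : n ∈ D ↔ n ∈ A ∧ n ∈ B := by rw [hD, Finset.mem_inter]
    have hKn : n ∈ K ↔ (n ∈ A ∧ n ∉ B) ∨ (n ∈ B ∧ n ∉ A) := by rw [hK, Finset.mem_symmDiff]
    by_cases hKK : n ∈ K
    · have h3 := hσn (e.symm ⟨n, hKK⟩)
      have h4 : (∃ h : n ∈ K, σ (e.symm ⟨n, h⟩) = true) ↔ σ (e.symm ⟨n, hKK⟩) = true :=
        ⟨fun ⟨_, h⟩ => h, fun h => ⟨hKK, h⟩⟩
      have h5 : (∃ h : n ∈ K, σ' (e.symm ⟨n, h⟩) = true) ↔ σ' (e.symm ⟨n, hKK⟩) = true :=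
        ⟨fun ⟨_, h⟩ => h, fun h => ⟨hKK, h⟩⟩
      rw [h4] at hs1
      rw [h5, h3] at hs2
      by_cases hA : n ∈ A <;> by_cases hB : n ∈ B <;>
        by_cases h6 : σ (e.symm ⟨n, hKK⟩) = true <;> simp_all
    · have h4 : (∃ h : n ∈ K, σ (e.symm ⟨n, h⟩) = true) ↔ False :=
        ⟨fun ⟨h, _⟩ => hKK h, fun h => h.elim⟩
      have h5 : (∃ h : n ∈ K, σ' (e.symm ⟨n, h⟩) = true) ↔ False :=
        ⟨fun ⟨h, _⟩ => hKK h, fun h => h.elim⟩
      rw [h4, or_false] at hs1
      rw [h5, or_false] at hs2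
      by_cases hA : n ∈ A <;> by_cases hB : n ∈ B <;> simp_all

/-- The statement of the key lemma (existence of absorbing kernels). -/
def KL : Prop :=
  ∀ (q : ℝ), 1 < q → ∀ (C0 γ : ℝ), 0 < γ →
    ∃ D i1 : ℕ, ∀ i ≥ i1, ∀ (ι : Type) [Fintype ι] [DecidableEq ι] (x : ι → ℝ), (∀ n, 0 < x n) →
      ∑ n, x n ≤ C0 →
      ∃ κ : Kern x (i ^ D) ((2:ℝ) ^ (-(q ^ ((i:ℝ) / 2)) - i)),
        Absorbs κ i (sc q i) ((2:ℝ) ^ (γ * q ^ i))

lemma X_fin (x : ℕ → ℝ) (n0 : ℕ) (A : Set ℕ) [DecidablePred (fun n => n ∈ A)] :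
    X (fun j : Fin n0 => x j) (Finset.univ.filter (fun j : Fin n0 => (j : ℕ) ∈ A)) =
      ∑ n ∈ Finset.range n0, A.indicator x n := by
  rw [X_eq_sum, ← Fin.sum_univ_eq_sum_range (fun n => A.indicator x n) n0]
  apply Finset.sum_congr rfl
  intro j _
  simp [Set.indicator_apply]

lemma X_mem_achSet (x : ℕ → ℝ) (n0 : ℕ) (S : Finset (Fin n0)) :
    X (fun j : Fin n0 => x j) S ∈ achSet x := by
  have h := finset_sum_mem_achSet x (S.map Fin.valEmbedding)
  rwa [Finset.sum_map] at h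

/-- The covering of `E + E`. -/
lemma cover_sum (hKL : KL) {x : ℕ → ℝ} (hx : ∀ n, 0 < x n) (hs : Summable x) {q : ℝ} (hq : 1 < q)
    {γ : ℝ} (hγ : 0 < γ) {s : ℝ} (hs0 : 0 < s) (h0 : μH[s] (achSet x) = 0) :
    ∃ i1 : ℕ, ∀ i0 ≥ i1, ∃ T : Finset (ℕ × ℤ × ℤ), (∀ p ∈ T, i0 ≤ p.1) ∧
      (∀ z ∈ achSet x + achSet x, ∃ p ∈ T, |z - ((p.2.1 : ℝ) + p.2.2) * sc q p.1| ≤ 3 * sc q p.1) ∧
      ∀ i, ((T.filter (fun p => p.1 = i)).card : ℝ) ≤
        25 * (2:ℝ) ^ (4 * γ * q ^ i + 2 * s * q ^ (i + 1)) := by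
  classical
  obtain ⟨D, i1, hi1⟩ := hKL q hq (∑' n, x n) γ hγ
  obtain ⟨i2, hi2⟩ := exists_tau hq hγ D
  have hr0 : ∀ i, 0 < sc q i := fun i => Real.rpow_pos_of_pos two_pos _
  have hrlim : Tendsto (sc q) atTop (𝓝 0) := by
    have h1 : Tendsto (fun i : ℕ => -(q ^ i)) atTop atBot :=
      tendsto_neg_atTop_atBot.comp (tendsto_pow_atTop_atTop_of_one_lt hq)
    exact (tendsto_rpow_atBot_of_base_gt_one 2 one_lt_two).comp h1
  refine ⟨max 1 (max i1 i2), fun i0 hi0 => ?_⟩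
  have hi01 : 1 ≤ i0 := le_trans (le_max_left _ _) hi0
  have hi0i1 : i1 ≤ i0 := le_trans ((le_max_left _ _).trans (le_max_right _ _)) hi0
  have hi0i2 : i2 ≤ i0 := le_trans ((le_max_right _ _).trans (le_max_right _ _)) hi0
  obtain ⟨F, c, lab, hlab1, hcov1, hcov2⟩ :=
    exists_cover (isCompact_achSet hx hs) hs0 h0 hr0 hrlim i0
  set i3 := (F.image lab).sup id with hi3
  obtain ⟨δ, hδ, hδL⟩ := exists_pos_le (Finset.Icc i0 i3) hr0
  -- truncation
  have htail : ∀ᶠ n0 in atTop, ∑' k, x (k + n0) ≤ δ / 2 := by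
    have h := tendsto_sum_nat_add x
    exact (h.eventually_lt_const (half_pos hδ)).mono fun _ h => h.le
  obtain ⟨n0, hn0⟩ := htail.exists
  set x' : Fin n0 → ℝ := fun j => x j with hx'
  have hx'0 : ∀ j, 0 < x' j := fun j => hx j
  have hsum' : ∑ j, x' j ≤ ∑' n, x n := by
    rw [hx', Fin.sum_univ_eq_sum_range (fun n => x n) n0]
    exact hs.sum_le_tsum _ (fun n _ => (hx n).le)
  have hch : ∀ u, ∃ n, u ∈ achSet x → (n ∈ F ∧ |u - c n| < 2 * sc q (lab n)) := by
    intro u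
    by_cases hu : u ∈ achSet x
    · obtain ⟨n, hn, hn2⟩ := hcov1 u hu
      exact ⟨n, fun _ => ⟨hn, hn2⟩⟩
    · exact ⟨0, fun h => absurd h hu⟩
  choose nn hnn using hch
  set E : ℕ → Finset (Finset (Fin n0)) := fun i =>
    Finset.univ.filter (fun S => lab (nn (X x' S)) = i) with hE
  have hEcov : ∀ S, ∃ i, i0 ≤ i ∧ i ≤ i3 ∧ S ∈ E i := by
    intro S
    obtain ⟨h1, _⟩ := hnn _ (X_mem_achSet x n0 S)
    refine ⟨lab (nn (X x' S)), hlab1 _, ?_, ?_⟩
    · rw [hi3]
      exact Finset.le_sup (f := id) (Finset.mem_image_of_mem _ h1)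
    · rw [hE]
      exact Finset.mem_filter.2 ⟨Finset.mem_univ _, rfl⟩
  have hEcells : ∀ i, cells x' (sc q i) (E i) ≤ 5 * (F.filter (fun n => lab n = i)).card := by
    intro i
    have hsub : (E i).image (fun S => ⌊X x' S / sc q i⌋) ⊆
        ((F.filter (fun n => lab n = i)) ×ˢ ({-2, -1, 0, 1, 2} : Finset ℤ)).image
          (fun p => ⌊c p.1 / sc q i⌋ + p.2) := by
      intro m hm
      rw [Finset.mem_image] at hm
      obtain ⟨S, hS, rfl⟩ := hm
      rw [hE, Finset.mem_filter] at hS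
      obtain ⟨h1, h2⟩ := hnn _ (X_mem_achSet x n0 S)
      rw [Finset.mem_image]
      refine ⟨(nn (X x' S), ⌊X x' S / sc q i⌋ - ⌊c (nn (X x' S)) / sc q i⌋), ?_, by simp⟩
      rw [Finset.mem_product, Finset.mem_filter]
      refine ⟨⟨h1, hS.2⟩, ?_⟩
      have h3 : |X x' S - c (nn (X x' S))| < 2 * sc q i := by
        have h4 : lab (nn (X x' S)) = i := hS.2
        rw [← h4]
        exact h2
      have h4 : |X x' S / sc q i - c (nn (X x' S)) / sc q i| < 2 := by
        rw [← sub_div, abs_div, abs_of_pos (hr0 i), div_lt_iff₀ (hr0 i)]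
        exact h3
      rw [abs_lt] at h4
      have a1 := Int.floor_le (X x' S / sc q i)
      have a2 := Int.lt_floor_add_one (X x' S / sc q i)
      have a3 := Int.floor_le (c (nn (X x' S)) / sc q i)
      have a4 := Int.lt_floor_add_one (c (nn (X x' S)) / sc q i)
      have a5 : (⌊X x' S / sc q i⌋ : ℝ) < (⌊c (nn (X x' S)) / sc q i⌋ : ℝ) + 3 := by linarith
      have a6 : (⌊c (nn (X x' S)) / sc q i⌋ : ℝ) < (⌊X x' S / sc q i⌋ : ℝ) + 3 := by linarith
      have a7 : ⌊X x' S / sc q i⌋ < ⌊c (nn (X x' S)) / sc q i⌋ + 3 := by exact_mod_cast a5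
      have a8 : ⌊c (nn (X x' S)) / sc q i⌋ < ⌊X x' S / sc q i⌋ + 3 := by exact_mod_cast a6
      simp only [Finset.mem_insert, Finset.mem_singleton]
      omega
    calc cells x' (sc q i) (E i) ≤ _ := Finset.card_le_card hsub
      _ ≤ _ := Finset.card_image_le
      _ = 5 * (F.filter (fun n => lab n = i)).card := by
        rw [Finset.card_product, mul_comm]
        rfl
  obtain ⟨τ, hτ1, hτ2⟩ := hi2 i0 hi0i2 i3 (Fin n0) x' hx'0
    (fun i h1 h2 => hi1 i (hi0i1.trans h1) (Fin n0) x' hx'0 hsum') E hEcov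
  set Z : ℕ → Finset ℤ := fun i =>
    (nbhd i (Finset.univ.filter (fun S => τ S = i))).image (fun S => ⌊X x' S / sc q i⌋) with hZ
  set T : Finset (ℕ × ℤ × ℤ) := (Finset.Icc i0 i3).biUnion
    (fun i => (Z i ×ˢ Z i).image (fun p => (i, p))) with hT
  refine ⟨T, ?_, ?_, ?_⟩
  · intro p hp
    rw [hT, Finset.mem_biUnion] at hp
    obtain ⟨i, hi, hp⟩ := hp
    rw [Finset.mem_image] at hp
    obtain ⟨p', _, rfl⟩ := hp
    exact (Finset.mem_Icc.1 hi).1
  · intro z hz
    obtain ⟨_, ⟨A, rfl⟩, _, ⟨B, rfl⟩, rfl⟩ := Set.mem_add.1 hz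
    have hA := trunc hx hs A hn0
    have hB := trunc hx hs B hn0
    rw [← X_fin x n0 A] at hA
    rw [← X_fin x n0 B] at hB
    obtain ⟨S, S', hS', hsum⟩ := split_fin x' τ (fun S => hi01.trans (hτ1 S).1)
      (Finset.univ.filter (fun j : Fin n0 => (j : ℕ) ∈ A))
      (Finset.univ.filter (fun j : Fin n0 => (j : ℕ) ∈ B))
    set i := τ S with hi
    have hiI : i ∈ Finset.Icc i0 i3 := Finset.mem_Icc.2 (hτ1 S)
    have hS : S ∈ nbhd i (Finset.univ.filter (fun T => τ T = i)) := by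
      rw [nbhd, Finset.mem_filter]
      refine ⟨Finset.mem_univ _, S, Finset.mem_filter.2 ⟨Finset.mem_univ _, rfl⟩, ?_⟩
      have : S ∆ S = ∅ := symmDiff_self S
      rw [this, Finset.card_empty]
      exact Nat.zero_le _
    refine ⟨(i, ⌊X x' S / sc q i⌋, ⌊X x' S' / sc q i⌋), ?_, ?_⟩
    · rw [hT, Finset.mem_biUnion]
      refine ⟨i, hiI, ?_⟩
      rw [Finset.mem_image]
      exact ⟨_, Finset.mem_product.2 ⟨Finset.mem_image_of_mem _ hS,
        Finset.mem_image_of_mem _ hS'⟩, rfl⟩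
    · simp only
      have hδi := hδL i hiI
      have hri := hr0 i
      have b1 := Int.floor_le (X x' S / sc q i)
      have b2 := Int.lt_floor_add_one (X x' S / sc q i)
      have b3 := Int.floor_le (X x' S' / sc q i)
      have b4 := Int.lt_floor_add_one (X x' S' / sc q i)
      rw [le_div_iff₀ hri] at b1 b3
      rw [div_lt_iff₀ hri] at b2 b4
      rw [abs_le] at hA hB ⊢
      obtain ⟨hA1, hA2⟩ := hA
      obtain ⟨hB1, hB2⟩ := hB
      constructor <;> nlinarith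
  · intro i
    by_cases hi : i ∈ Finset.Icc i0 i3
    · have h1 : (T.filter (fun p => p.1 = i)) ⊆ (Z i ×ˢ Z i).image (fun p => (i, p)) := by
        intro p hp
        rw [Finset.mem_filter, hT, Finset.mem_biUnion] at hp
        obtain ⟨⟨i', _, hp⟩, hp2⟩ := hp
        rw [Finset.mem_image] at hp
        obtain ⟨p', hp', rfl⟩ := hp
        simp only at hp2
        subst hp2
        exact Finset.mem_image_of_mem _ hp'
      have h2 : (T.filter (fun p => p.1 = i)).card ≤ (Z i).card * (Z i).card := by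
        refine (Finset.card_le_card h1).trans (Finset.card_image_le.trans ?_)
        rw [Finset.card_product]
      have h3 : ((Z i).card : ℝ) ≤ (2:ℝ) ^ (2 * γ * q ^ i) * (5 * (2:ℝ) ^ (s * q ^ (i + 1))) := by
        rw [Finset.mem_Icc] at hi
        have h4 := hτ2 i hi.1 hi.2
        have h5 : ((cells x' (sc q i) (E i) : ℕ) : ℝ) ≤ 5 * (2:ℝ) ^ (s * q ^ (i + 1)) := by
          have h6 := hcov2 i
          have h7 : sc q (i + 1) ^ s = (2:ℝ) ^ (-(s * q ^ (i + 1))) := by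
            rw [sc, ← Real.rpow_mul two_pos.le]
            congr 1
            ring
          rw [h7, Real.rpow_neg two_pos.le, ← div_eq_mul_inv, div_le_one (by positivity)] at h6
          calc ((cells x' (sc q i) (E i) : ℕ) : ℝ) ≤ ((5 * (F.filter (fun n => lab n = i)).card : ℕ) : ℝ) := by
                exact_mod_cast hEcells i
            _ = 5 * ((F.filter (fun n => lab n = i)).card : ℝ) := by push_cast; ring
            _ ≤ _ := by gcongr
        calc ((Z i).card : ℝ) ≤ _ := h4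
          _ ≤ _ := by gcongr
      calc ((T.filter (fun p => p.1 = i)).card : ℝ) ≤ ((Z i).card : ℝ) * (Z i).card := by exact_mod_cast h2
        _ ≤ ((2:ℝ) ^ (2 * γ * q ^ i) * (5 * (2:ℝ) ^ (s * q ^ (i + 1)))) *
            ((2:ℝ) ^ (2 * γ * q ^ i) * (5 * (2:ℝ) ^ (s * q ^ (i + 1)))) := by gcongr
        _ = 25 * (((2:ℝ) ^ (2 * γ * q ^ i) * (2:ℝ) ^ (2 * γ * q ^ i)) *
            ((2:ℝ) ^ (s * q ^ (i + 1)) * (2:ℝ) ^ (s * q ^ (i + 1)))) := by ring
        _ = _ := by
          rw [← Real.rpow_add two_pos, ← Real.rpow_add two_pos, ← Real.rpow_add two_pos]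
          congr 2
          ring
    · have h1 : T.filter (fun p => p.1 = i) = ∅ := by
        rw [Finset.filter_eq_empty_iff]
        intro p hp hpi
        rw [hT, Finset.mem_biUnion] at hp
        obtain ⟨i', hi', hp⟩ := hp
        rw [Finset.mem_image] at hp
        obtain ⟨p', _, rfl⟩ := hp
        simp only at hpi
        exact hi (hpi ▸ hi')
      rw [h1, Finset.card_empty]
      have : (0:ℝ) < 25 * (2:ℝ) ^ (4 * γ * q ^ i + 2 * s * q ^ (i + 1)) := by positivity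
      simpa using this.le

/-- Key estimate: if `μH[s] E = 0`, and `t > 2 s`, then the `t`-dimensional Hausdorff measure of
`E + E` is finite. -/
lemma hausdorff_ne_top (hKL : KL) {x : ℕ → ℝ} (hx : ∀ n, 0 < x n) (hs : Summable x)
    {s t : ℝ} (hs0 : 0 < s) (hst : 2 * s < t) (h0 : μH[s] (achSet x) = 0) :
    μH[t] (achSet x + achSet x) ≠ ⊤ := by
  classical
  -- parameters
  set γ : ℝ := (t - 2 * s) / 8 with hγ
  have hγ0 : 0 < γ := by rw [hγ]; linarith
  set q : ℝ := 1 + γ / (2 * s) with hqdef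
  have hq : 1 < q := by
    rw [hqdef]
    have : 0 < γ / (2 * s) := by positivity
    linarith
  have hq0 : 0 < q := zero_lt_one.trans hq
  have h2sq : 2 * s * q = 2 * s + γ := by rw [hqdef]; field_simp
  set r : ℕ → ℝ := sc q with hr
  have hr0 : ∀ i, 0 < r i := fun i => Real.rpow_pos_of_pos two_pos _
  have hrlim : Tendsto r atTop (𝓝 0) := by
    have h1 : Tendsto (fun i : ℕ => -(q ^ i)) atTop atBot :=
      tendsto_neg_atTop_atBot.comp (tendsto_pow_atTop_atTop_of_one_lt hq)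
    exact (tendsto_rpow_atBot_of_base_gt_one 2 one_lt_two).comp h1
  obtain ⟨i1, hi1⟩ := cover_sum hKL hx hs hq hγ0 hs0 h0
  have hch : ∀ i0, ∃ T : Finset (ℕ × ℤ × ℤ), i1 ≤ i0 → ((∀ p ∈ T, i0 ≤ p.1) ∧
      (∀ z ∈ achSet x + achSet x, ∃ p ∈ T, |z - ((p.2.1 : ℝ) + p.2.2) * r p.1| ≤ 3 * r p.1) ∧
      ∀ i, ((T.filter (fun p => p.1 = i)).card : ℝ) ≤
        25 * (2:ℝ) ^ (4 * γ * q ^ i + 2 * s * q ^ (i + 1))) := by
    intro i0
    by_cases h : i1 ≤ i0
    · obtain ⟨T, hT⟩ := hi1 i0 h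
      exact ⟨T, fun _ => hT⟩
    · exact ⟨∅, fun h' => absurd h' h⟩
  choose T hT using hch
  set B : (ℕ × ℤ × ℤ) → Set ℝ := fun p =>
    Metric.closedBall (((p.2.1 : ℝ) + p.2.2) * r p.1) (3 * r p.1) with hB
  have hcover : ∀ᶠ i0 : ℕ in atTop, achSet x + achSet x ⊆ ⋃ p : T i0, B p := by
    filter_upwards [eventually_ge_atTop i1] with i0 hi0 z hz
    obtain ⟨p, hp, hp2⟩ := (hT i0 hi0).2.1 z hz
    refine Set.mem_iUnion.2 ⟨⟨p, hp⟩, ?_⟩
    rw [hB]
    simp only
    rw [Metric.mem_closedBall, Real.dist_eq]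
    exact hp2
  -- diameters
  have hdiam : ∀ p : ℕ × ℤ × ℤ, Metric.ediam (B p) ≤ ENNReal.ofReal (6 * r p.1) := by
    intro p
    rw [hB]
    simp only
    rw [Real.closedBall_eq_Icc, Real.ediam_Icc]
    apply ENNReal.ofReal_le_ofReal
    linarith
  have hranti : ∀ i j, i ≤ j → r j ≤ r i := by
    intro i j hij
    rw [hr, sc, sc]
    apply Real.rpow_le_rpow_of_exponent_le one_le_two
    have := pow_le_pow_right₀ hq.le hij
    linarith
  have ht0 : 0 < t := by linarith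
  set g : ℕ → ℝ := fun i => (25 * (6:ℝ) ^ t) * (2:ℝ) ^ (-(3 * γ * q ^ i)) with hg
  have hgsum : Summable g := by
    rw [hg]
    exact summable_aux hq (by linarith) _
  have hg0 : ∀ i, 0 ≤ g i := fun i => by rw [hg]; positivity
  -- bound for the contribution of the label `i`
  have hlabel : ∀ i0, i1 ≤ i0 → ∀ i,
      (((T i0).filter (fun p => p.1 = i)).card : ℝ) * (6 * r i) ^ t ≤ g i := by
    intro i0 hi0 i
    have h5 : (6 * r i) ^ t = (6:ℝ) ^ t * (2:ℝ) ^ (-(t * q ^ i)) := by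
      rw [Real.mul_rpow (by norm_num) (hr0 i).le]
      congr 1
      rw [hr, sc, ← Real.rpow_mul two_pos.le]
      congr 1
      ring
    rw [h5, hg]
    calc (((T i0).filter (fun p => p.1 = i)).card : ℝ) * ((6:ℝ) ^ t * (2:ℝ) ^ (-(t * q ^ i)))
        ≤ (25 * (2:ℝ) ^ (4 * γ * q ^ i + 2 * s * q ^ (i + 1))) *
          ((6:ℝ) ^ t * (2:ℝ) ^ (-(t * q ^ i))) := by
            gcongr
            exact (hT i0 hi0).2.2 i
      _ = (25 * (6:ℝ) ^ t) * ((2:ℝ) ^ (4 * γ * q ^ i + 2 * s * q ^ (i + 1)) *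
          (2:ℝ) ^ (-(t * q ^ i))) := by ring
      _ = (25 * (6:ℝ) ^ t) * (2:ℝ) ^ (-(3 * γ * q ^ i)) := by
          rw [← Real.rpow_add two_pos]
          congr 2
          have h6 : t = 2 * s + 8 * γ := by rw [hγ]; ring
          rw [h6, pow_succ]
          linear_combination (q ^ i) * h2sq
  have hbound : ∀ᶠ i0 : ℕ in atTop, ∑ p : T i0, Metric.ediam (B p) ^ t ≤
      ENNReal.ofReal (∑' i, g i) := by
    filter_upwards [eventually_ge_atTop i1] with i0 hi0
    calc ∑ p : T i0, Metric.ediam (B p) ^ t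
        ≤ ∑ p : T i0, ENNReal.ofReal ((6 * r (p : ℕ × ℤ × ℤ).1) ^ t) := by
          apply Finset.sum_le_sum
          intro p _
          rw [← ENNReal.ofReal_rpow_of_nonneg (by have := hr0 (p : ℕ × ℤ × ℤ).1; linarith)
            ht0.le]
          exact ENNReal.rpow_le_rpow (hdiam p) ht0.le
      _ = ∑ p ∈ T i0, ENNReal.ofReal ((6 * r p.1) ^ t) :=
          Finset.sum_coe_sort (T i0) (fun p => ENNReal.ofReal ((6 * r p.1) ^ t))
      _ = ∑ i ∈ (T i0).image Prod.fst, ∑ p ∈ (T i0).filter (fun p => p.1 = i),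
            ENNReal.ofReal ((6 * r p.1) ^ t) :=
          (Finset.sum_fiberwise_of_maps_to (fun p hp => Finset.mem_image_of_mem _ hp) _).symm
      _ = ∑ i ∈ (T i0).image Prod.fst, ENNReal.ofReal
            ((((T i0).filter (fun p => p.1 = i)).card : ℝ) * (6 * r i) ^ t) := by
          apply Finset.sum_congr rfl
          intro i _
          have h1 : ∀ p ∈ (T i0).filter (fun p => p.1 = i), ENNReal.ofReal ((6 * r p.1) ^ t) =
              ENNReal.ofReal ((6 * r i) ^ t) := by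
            intro p hp
            rw [(Finset.mem_filter.1 hp).2]
          rw [Finset.sum_congr rfl h1, Finset.sum_const, nsmul_eq_mul,
            ENNReal.ofReal_mul (by positivity), ENNReal.ofReal_natCast]
      _ ≤ ∑ i ∈ (T i0).image Prod.fst, ENNReal.ofReal (g i) := by
          apply Finset.sum_le_sum
          intro i _
          exact ENNReal.ofReal_le_ofReal (hlabel i0 hi0 i)
      _ = ENNReal.ofReal (∑ i ∈ (T i0).image Prod.fst, g i) :=
          (ENNReal.ofReal_sum_of_nonneg (fun i _ => hg0 i)).symm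
      _ ≤ ENNReal.ofReal (∑' i, g i) :=
          ENNReal.ofReal_le_ofReal (hgsum.sum_le_tsum _ (fun i _ => hg0 i))
  have hrE : Tendsto (fun i0 : ℕ => ENNReal.ofReal (6 * r i0)) atTop (𝓝 0) := by
    have h1 : Tendsto (fun i0 : ℕ => 6 * r i0) atTop (𝓝 0) := by
      simpa using hrlim.const_mul 6
    have := ENNReal.tendsto_ofReal h1
    simpa using this
  have hfin := Measure.hausdorffMeasure_le_liminf_sum t (achSet x + achSet x)
    (l := atTop) (ι := fun i0 => T i0) (fun i0 => ENNReal.ofReal (6 * r i0)) hrE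
    (fun i0 p => B p) (by
      filter_upwards [eventually_ge_atTop i1] with i0 hi0 p
      refine (hdiam p).trans (ENNReal.ofReal_le_ofReal ?_)
      have h1 : i0 ≤ (p : ℕ × ℤ × ℤ).1 := (hT i0 hi0).1 _ p.2
      have := hranti _ _ h1
      linarith) hcover
  have hle : liminf (fun i0 => ∑ p : T i0, Metric.ediam (B p) ^ t) atTop ≤
      liminf (fun _ : ℕ => ENNReal.ofReal (∑' i, g i)) atTop := liminf_le_liminf hbound
  rw [liminf_const] at hle
  exact ((hfin.trans hle).trans_lt ENNReal.ofReal_lt_top).ne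

/-- **Main theorem**, modulo the key lemma. -/
theorem dimH_add_le (hKL : KL) {x : ℕ → ℝ} (hx : ∀ n, 0 < x n) (hs : Summable x) :
    dimH (achSet x + achSet x) / 2 ≤ dimH (achSet x) := by
  apply le_of_forall_gt
  intro d hd
  obtain ⟨s, hs1, hs2⟩ := ENNReal.lt_iff_exists_nnreal_btwn.1 hd
  refine lt_of_le_of_lt ?_ hs2
  have hs0 : (0:ℝ) < s := by
    have : (0 : ℝ≥0∞) < s := lt_of_le_of_lt bot_le hs1
    exact_mod_cast this
  have h0 : μH[s] (achSet x) = 0 := hausdorffMeasure_of_dimH_lt hs1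
  have hdim : dimH (achSet x + achSet x) ≤ 2 * s := by
    apply le_of_forall_gt
    intro d' hd'
    obtain ⟨t, ht1, ht2⟩ := ENNReal.lt_iff_exists_nnreal_btwn.1 hd'
    refine lt_of_le_of_lt ?_ ht2
    apply dimH_le_of_hausdorffMeasure_ne_top
    apply hausdorff_ne_top hKL hx hs hs0 _ h0
    exact_mod_cast ht1
  rw [ENNReal.div_le_iff_le_mul (Or.inl (by norm_num)) (Or.inl (by norm_num))]
  rwa [mul_comm]

end Pool.Agent.Lib.Helper30.Ach
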