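import Mathlib
import Pool.Agent.Lib.Helper88.Ach.KL
import Pool.Agent.Lib.Helper30.Ach.Wrap

/-!
# `dim_H (E + E) ≤ 2 dim_H E` for every achievement set `E`
-/

set_option autoImplicit false

open scoped Pointwise

namespace Pool.Agent.Lib.Helper30.Ach

open Pool.Agent.Lib.Helper88.Ach
open Pool.Agent.Lib.Helper30.Achieve (achSet)

theorem kl : KL := by
  intro q hq C0 γ hγ
  exact exists_kern hq hγ

/-- **Main theorem.** For every summable sequence of positive reals, with achievement set `E`,
`dim_H (E + E) / 2 ≤ dim_H E`. -/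
theorem dimH_achSet_add_le {x : ℕ → ℝ} (hx : ∀ n, 0 < x n) (hs : Summable x) :
    dimH (achSet x + achSet x) / 2 ≤ dimH (achSet x) :=
  dimH_add_le kl hx hs

end Pool.Agent.Lib.Helper30.Ach
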